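import Mathlib

set_option autoImplicit false
set_option linter.all false
set_option linter.unusedSectionVars false

namespace Pool.Agent.W646.MXD

open Module

section gen

variable {F V : Type} [Field F] [AddCommGroup V] [Module F V] [FiniteDimensional F V]

/-- `G` contains all transvections -/
def AllT (Γ : Subgroup (V ≃ₗ[F] V)) : Prop :=
  ∀ (v : V) (f : V →ₗ[F] F), f v = 0 → ∃ g ∈ Γ, ∀ x, g x = x + f x • v

omit [FiniteDimensional F V] in
theorem det_mul_eq (g h : V ≃ₗ[F] V) : LinearMap.det ((g * h : V ≃ₗ[F] V) : V →ₗ[F] V) =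
    LinearMap.det (g : V →ₗ[F] V) * LinearMap.det (h : V →ₗ[F] V) := by
  rw [← LinearMap.det_comp]
  rfl

theorem move {Γ : Subgroup (V ≃ₗ[F] V)} (hT : AllT Γ) (U : Submodule F V) (a b : V)
    (h : a ∉ U ⊔ Submodule.span F {b - a}) :
    ∃ g ∈ Γ, (∀ u ∈ U, g u = u) ∧ g a = b ∧ LinearMap.det (g : V →ₗ[F] V) = 1 := by
  obtain ⟨f, hfa, hf⟩ := Submodule.exists_dual_map_eq_bot_of_notMem h inferInstance
  have hf' : ∀ x ∈ U ⊔ Submodule.span F {b - a}, f x = 0 := by
    intro x hx
    have : f x ∈ (U ⊔ Submodule.span F {b - a}).map f := Submodule.mem_map_of_mem hx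
    rw [hf] at this
    exact (Submodule.mem_bot F).mp this
  have hba : f (b - a) = 0 :=
    hf' _ (Submodule.mem_sup_right (Submodule.mem_span_singleton_self _))
  obtain ⟨g, hg, hgx⟩ := hT ((f a)⁻¹ • (b - a)) f (by rw [map_smul, hba, smul_zero])
  refine ⟨g, hg, ?_, ?_, ?_⟩
  · intro u hu
    rw [hgx, hf' u (Submodule.mem_sup_left hu), zero_smul, add_zero]
  · rw [hgx, smul_smul, mul_inv_cancel₀ hfa, one_smul]
    abel
  · have hglin : (g : V →ₗ[F] V) = LinearMap.transvection f ((f a)⁻¹ • (b - a)) := by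
      ext z
      rw [LinearMap.transvection.apply]
      exact hgx z
    rw [hglin, LinearMap.transvection.det, map_smul, hba, smul_zero, add_zero]

omit [FiniteDimensional F V] in
theorem mem_sup_span {U : Submodule F V} {a b : V} :
    a ∈ U ⊔ Submodule.span F {b} ↔ ∃ u ∈ U, ∃ c : F, a = u + c • b := by
  rw [Submodule.mem_sup]
  constructor
  · rintro ⟨u, hu, w, hw, rfl⟩
    obtain ⟨c, rfl⟩ := Submodule.mem_span_singleton.mp hw
    exact ⟨u, hu, c, rfl⟩
  · rintro ⟨u, hu, c, rfl⟩
    exact ⟨u, hu, c • b, Submodule.mem_span_singleton.mpr ⟨c, rfl⟩, rfl⟩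

/-- if codim U ≥ 2 and x, y are outside U, some element of Γ fixes U and maps y to x -/
theorem move2 {Γ : Subgroup (V ≃ₗ[F] V)} (hT : AllT Γ) (U : Submodule F V) (x y : V)
    (hx : x ∉ U) (hy : y ∉ U) (hc : U ⊔ Submodule.span F {x} ≠ ⊤) :
    ∃ g ∈ Γ, (∀ u ∈ U, g u = u) ∧ g y = x ∧ LinearMap.det (g : V →ₗ[F] V) = 1 := by
  by_cases h1 : y ∉ U ⊔ Submodule.span F {x - y}
  · exact move hT U y x h1
  · push Not at h1
    obtain ⟨u, hu, c, hyc⟩ := mem_sup_span.mp h1
    have hc0 : c ≠ 0 := by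
      rintro rfl
      apply hy
      rw [hyc, zero_smul, add_zero]
      exact hu
    -- y = u + c (x - y)
    have hyU : y ∈ U ⊔ Submodule.span F {x} := by
      rw [mem_sup_span]
      by_cases h1c : 1 + c = 0
      · exfalso
        apply hx
        have hc1 : c = -1 := by linear_combination h1c
        have : x = u := by
          have h2 : y + c • y = u + c • x := by
            nth_rewrite 1 [hyc]
            rw [smul_sub]; abel
          rw [hc1] at h2
          have h3 : u - x = 0 := by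
            have : y + (-1 : F) • y = 0 := by rw [neg_one_smul]; abel
            rw [this] at h2
            rw [neg_one_smul] at h2
            rw [sub_eq_add_neg]
            exact h2.symm
          exact (sub_eq_zero.mp h3).symm
        rw [this]; exact hu
      · refine ⟨(1 + c)⁻¹ • u, U.smul_mem _ hu, (1 + c)⁻¹ * c, ?_⟩
        have h2 : (1 + c) • y = u + c • x := by
          rw [add_smul, one_smul]
          nth_rewrite 1 [hyc]
          rw [smul_sub]; abel
        calc y = (1 + c)⁻¹ • ((1 + c) • y) := by rw [smul_smul, inv_mul_cancel₀ h1c, one_smul]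
          _ = _ := by rw [h2, smul_add, smul_smul]
    obtain ⟨z, -, hz⟩ := SetLike.exists_of_lt (lt_top_iff_ne_top.mpr hc)
    -- y to z
    have hyz : y ∉ U ⊔ Submodule.span F {z - y} := by
      intro hcon
      obtain ⟨u', hu', c', hyc'⟩ := mem_sup_span.mp hcon
      have hc0' : c' ≠ 0 := by
        rintro rfl
        apply hy
        rw [hyc', zero_smul, add_zero]
        exact hu'
      apply hz
      have h3 : z = y + c'⁻¹ • (y - u') := by
        have h4 : y - u' = c' • (z - y) := by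
          nth_rewrite 1 [hyc']; abel
        rw [h4, smul_smul, inv_mul_cancel₀ hc0', one_smul]
        abel
      rw [h3]
      exact Submodule.add_mem _ hyU (Submodule.smul_mem _ _ (Submodule.sub_mem _ hyU
        (Submodule.mem_sup_left hu')))
    have hzx : z ∉ U ⊔ Submodule.span F {x - z} := by
      intro hcon
      obtain ⟨u', hu', c', hzc'⟩ := mem_sup_span.mp hcon
      have h2 : (1 + c') • z = u' + c' • x := by
        rw [add_smul, one_smul]
        nth_rewrite 1 [hzc']
        rw [smul_sub]; abel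
      by_cases h1c : 1 + c' = 0
      · apply hx
        have hc1 : c' = -1 := by linear_combination h1c
        rw [h1c, zero_smul, hc1, neg_one_smul, ← sub_eq_add_neg] at h2
        rw [← sub_eq_zero.mp h2.symm]
        exact hu'
      · apply hz
        have h3 : z = (1 + c')⁻¹ • (u' + c' • x) := by
          rw [← h2, smul_smul, inv_mul_cancel₀ h1c, one_smul]
        rw [h3]
        exact Submodule.smul_mem _ _ (Submodule.add_mem _ (Submodule.mem_sup_left hu')
          (Submodule.smul_mem _ _ (Submodule.mem_sup_right (Submodule.mem_span_singleton_self _))))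
    obtain ⟨g1, hg1, hg1U, hg1y, hd1⟩ := move hT U y z hyz
    obtain ⟨g2, hg2, hg2U, hg2z, hd2⟩ := move hT U z x hzx
    refine ⟨g2 * g1, Γ.mul_mem hg2 hg1, ?_, ?_, ?_⟩
    · intro u hu
      rw [LinearEquiv.mul_apply, hg1U u hu, hg2U u hu]
    · rw [LinearEquiv.mul_apply, hg1y, hg2z]
    · rw [det_mul_eq, hd1, hd2, mul_one]

theorem SL_mem {Γ : Subgroup (V ≃ₗ[F] V)} (hT : AllT Γ) :
    ∀ (n : ℕ) (g : V ≃ₗ[F] V) (U : Submodule F V), (∀ u ∈ U, g u = u) →
      finrank F V = finrank F U + n → LinearMap.det (g : V →ₗ[F] V) = 1 → g ∈ Γ := by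
  intro n
  induction n with
  | zero =>
    intro g U hU hn _
    have : U = ⊤ := Submodule.eq_top_of_finrank_eq (by omega)
    have hg : g = 1 := by
      ext x
      rw [hU x (by rw [this]; trivial)]
      rfl
    rw [hg]
    exact Γ.one_mem
  | succ n ih =>
    intro g U hU hn hdet
    have hUtop : U < ⊤ := by
      rw [lt_top_iff_ne_top]
      rintro rfl
      rw [finrank_top] at hn
      omega
    obtain ⟨x, -, hx⟩ := SetLike.exists_of_lt hUtop
    have hfr : finrank F ↥(U ⊔ Submodule.span F {x}) = finrank F U + 1 :=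
      Submodule.finrank_sup_span_singleton hx
    rcases Nat.eq_zero_or_pos n with hn0 | hn0
    · -- hyperplane
      subst hn0
      have htop : U ⊔ Submodule.span F {x} = ⊤ := Submodule.eq_top_of_finrank_eq (by omega)
      obtain ⟨f, hfx, hf⟩ := Submodule.exists_dual_map_eq_bot_of_notMem hx inferInstance
      have hf' : ∀ u ∈ U, f u = 0 := by
        intro u hu
        have : f u ∈ U.map f := Submodule.mem_map_of_mem hu
        rw [hf] at this
        exact (Submodule.mem_bot F).mp this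
      set w : V := (f x)⁻¹ • (g x - x) with hw
      have hgx : ∀ z, g z = z + f z • w := by
        intro z
        have hz : z ∈ U ⊔ Submodule.span F {x} := by rw [htop]; trivial
        obtain ⟨u, hu, c, rfl⟩ := mem_sup_span.mp hz
        rw [map_add, map_smul, hU u hu, map_add, map_smul, hf' u hu, zero_add, hw, smul_eq_mul,
          smul_smul, mul_assoc, mul_inv_cancel₀ hfx, mul_one, smul_sub]
        abel
      have hglin : (g : V →ₗ[F] V) = LinearMap.transvection f w := by
        ext z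
        rw [LinearMap.transvection.apply]
        exact hgx z
      rw [hglin, LinearMap.transvection.det] at hdet
      have hfw : f w = 0 := by linear_combination hdet
      obtain ⟨g', hg', hg'x⟩ := hT w f hfw
      have : g = g' := by
        ext z
        rw [hgx, hg'x]
      rw [this]
      exact hg'
    · have hne : U ⊔ Submodule.span F {x} ≠ ⊤ := by
        intro hcon
        rw [hcon, finrank_top] at hfr
        omega
      have hy : g x ∉ U := by
        intro hcon
        have h1 := hU _ hcon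
        have h2 := g.injective h1
        rw [h2] at hcon
        exact hx hcon
      obtain ⟨γ, hγ, hγU, hγx, hγd⟩ := move2 hT U x (g x) hx hy hne
      have hmem : γ * g ∈ Γ := by
        apply ih (γ * g) (U ⊔ Submodule.span F {x})
        · intro u hu
          obtain ⟨u', hu', c, rfl⟩ := mem_sup_span.mp hu
          rw [LinearEquiv.mul_apply, map_add, map_smul, hU u' hu', map_add, map_smul, hγx,
            hγU u' hu']
        · omega
        · rw [det_mul_eq, hγd, hdet, mul_one]
      have : g = γ⁻¹ * (γ * g) := by group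
      rw [this]
      exact Γ.mul_mem (Γ.inv_mem hγ) hmem

/-- conjugates of a subspace containing v, intersected -/
noncomputable def XX (Γ : Subgroup (V ≃ₗ[F] V)) (W : Submodule F V) (v : V) : Submodule F V :=
  ⨅ i : {g : V ≃ₗ[F] V // g ∈ Γ ∧ v ∈ W.map (g : V →ₗ[F] V)}, W.map (i.1 : V →ₗ[F] V)

theorem XX_mem (Γ : Subgroup (V ≃ₗ[F] V)) (W : Submodule F V) (v : V) : v ∈ XX Γ W v := by
  unfold XX
  rw [Submodule.mem_iInf]
  exact fun i => i.2.2

theorem XX_le {Γ : Subgroup (V ≃ₗ[F] V)} {W : Submodule F V} {u v : V} (h : u ∈ XX Γ W v) :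
    XX Γ W u ≤ XX Γ W v := by
  unfold XX at h ⊢
  rw [Submodule.mem_iInf] at h
  apply le_iInf
  intro i
  exact iInf_le (fun j : {g : V ≃ₗ[F] V // g ∈ Γ ∧ u ∈ W.map (g : V →ₗ[F] V)} =>
    W.map (j.1 : V →ₗ[F] V)) ⟨i.1, i.2.1, h i⟩

theorem XX_map {Γ : Subgroup (V ≃ₗ[F] V)} {W : Submodule F V} {v : V} {h : V ≃ₗ[F] V}
    (hh : h ∈ Γ) : (XX Γ W v).map (h : V →ₗ[F] V) ≤ XX Γ W (h v) := by
  conv_rhs => unfold XX
  apply le_iInf
  rintro ⟨g, hg, hgv⟩
  rintro _ ⟨x, hx, rfl⟩
  obtain ⟨w, hw, hwv⟩ := hgv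
  have h1 : v ∈ W.map ((h⁻¹ * g : V ≃ₗ[F] V) : V →ₗ[F] V) := by
    refine ⟨w, hw, ?_⟩
    change (h⁻¹ * g) w = v
    rw [LinearEquiv.mul_apply]
    have : g w = h v := hwv
    rw [this]
    exact h.symm_apply_apply v
  have h2 : x ∈ W.map ((h⁻¹ * g : V ≃ₗ[F] V) : V →ₗ[F] V) := by
    have h3 := hx
    unfold XX at h3
    rw [SetLike.mem_coe, Submodule.mem_iInf] at h3
    exact h3 ⟨h⁻¹ * g, Γ.mul_mem (Γ.inv_mem hh) hg, h1⟩
  obtain ⟨w', hw', hwx⟩ := h2
  refine ⟨w', hw', ?_⟩
  change g w' = h x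
  have h4 : (h⁻¹ * g) w' = x := hwx
  rw [← h4, LinearEquiv.mul_apply]
  exact (h.apply_symm_apply (g w')).symm

theorem XX_finrank {Γ : Subgroup (V ≃ₗ[F] V)} {W : Submodule F V} {v : V} {h : V ≃ₗ[F] V}
    (hh : h ∈ Γ) : finrank F (XX Γ W v) ≤ finrank F (XX Γ W (h v)) := by
  rw [← LinearEquiv.finrank_map_eq h (XX Γ W v)]
  exact Submodule.finrank_mono (XX_map hh)

theorem XX_T [Finite F] {Γ : Subgroup (V ≃ₗ[F] V)} {W : Submodule F V}
    (hW : ∀ w ∈ W, ∀ f : V →ₗ[F] F, (∀ w' ∈ W, f w' = 0) → ∃ g ∈ Γ, ∀ v, g v = v + f v • w)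
    {v : V} {f : V →ₗ[F] F} (hf : ∀ x ∈ XX Γ W v, f x = 0) :
    ∃ g ∈ Γ, ∀ x, g x = x + f x • v := by
  have : Finite V := Module.finite_of_finite F
  have : Finite (V ≃ₗ[F] V) := Finite.of_injective (fun g => (g : V → V)) DFunLike.coe_injective
  have h1 : f ∈ (XX Γ W v).dualAnnihilator := by
    rw [Submodule.mem_dualAnnihilator]
    exact hf
  unfold XX at h1
  rw [Subspace.dualAnnihilator_iInf_eq] at h1
  have key : (f v = 0) ∧ ∃ g ∈ Γ, ∀ x, g x = x + f x • v := by
    refine Submodule.iSup_induction _ (motive := fun f => (f v = 0) ∧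
      ∃ g ∈ Γ, ∀ x, g x = x + f x • v) h1 ?_ ?_ ?_
    · rintro ⟨g, hg, hgv⟩ f' hf'
      rw [Submodule.mem_dualAnnihilator] at hf'
      refine ⟨hf' v hgv, ?_⟩
      obtain ⟨w, hw, hwv⟩ := hgv
      have hwv' : g w = v := hwv
      obtain ⟨t, ht, htx⟩ := hW w hw (f'.comp (g : V →ₗ[F] V)) (by
        intro w' hw'
        exact hf' (g w') ⟨w', hw', rfl⟩)
      refine ⟨g * t * g⁻¹, Γ.mul_mem (Γ.mul_mem hg ht) (Γ.inv_mem hg), ?_⟩
      intro x
      rw [LinearEquiv.mul_apply, LinearEquiv.mul_apply, htx, map_add, map_smul, hwv']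
      have e1 : g (g⁻¹ x) = x := g.apply_symm_apply x
      have e2 : (f'.comp (g : V →ₗ[F] V)) (g⁻¹ x) = f' x := by
        change f' (g (g⁻¹ x)) = f' x
        rw [e1]
      rw [e1, e2]
    · refine ⟨by simp, 1, Γ.one_mem, ?_⟩
      intro x
      simp
    · rintro f1 f2 ⟨h1, g1, hg1, h1x⟩ ⟨h2, g2, hg2, h2x⟩
      refine ⟨by rw [LinearMap.add_apply, h1, h2, add_zero], g1 * g2, Γ.mul_mem hg1 hg2, ?_⟩
      intro x
      rw [LinearEquiv.mul_apply, h2x, h1x, map_add, map_smul, h1, smul_zero, add_zero,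
        LinearMap.add_apply, add_smul]
      abel
  exact key.2

end gen

/-- MX-D -/
theorem sD :   ∀ (F V : Type) [Field F] [Finite F] [AddCommGroup V] [Module F V] [FiniteDimensional F V]
    (Γ : Subgroup (V ≃ₗ[F] V)) (W : Submodule F V), W ≠ ⊥ → W ≠ ⊤ →
    (∀ v v' : V, v ≠ 0 → v' ≠ 0 → ∃ g ∈ Γ, g v = v') →
    (∀ w ∈ W, ∀ f : V →ₗ[F] F, (∀ w' ∈ W, f w' = 0) → ∃ g ∈ Γ, ∀ v, g v = v + f v • w) →
    (∀ d : F, d ≠ 0 → ∃ g ∈ Γ, LinearMap.det (g : V →ₗ[F] V) = d) → Γ = ⊤ := by
  intro F V _ _ _ _ _ Γ W hWb hWt htr hW hdet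
  -- dimensions
  have hdim : ∀ u v : V, u ≠ 0 → v ≠ 0 → finrank F (XX Γ W u) ≤ finrank F (XX Γ W v) := by
    intro u v hu hv
    obtain ⟨g, hg, hgu⟩ := htr u v hu hv
    rw [← hgu]
    exact XX_finrank hg
  have hXt : ∀ v : V, v ≠ 0 → XX Γ W v ≠ ⊤ := by
    intro v hv hcon
    obtain ⟨w, hw, hw0⟩ := W.ne_bot_iff.mp hWb
    obtain ⟨g, hg, hgw⟩ := htr w v hw0 hv
    have h1 : XX Γ W v ≤ W.map (g : V →ₗ[F] V) := by
      unfold XX
      exact iInf_le (fun j : {g : V ≃ₗ[F] V // g ∈ Γ ∧ v ∈ W.map (g : V →ₗ[F] V)} =>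
        W.map (j.1 : V →ₗ[F] V)) ⟨g, hg, ⟨w, hw, hgw⟩⟩
    rw [hcon, top_le_iff] at h1
    apply hWt
    apply Submodule.eq_top_of_finrank_eq
    have h2 := LinearEquiv.finrank_map_eq g W
    have h3 : W.map (g : V →ₗ[F] V) = ⊤ := h1
    rw [← h2]
    exact (congrArg (fun U : Submodule F V => finrank F U) h3).trans (finrank_top F V)
  have hXeq : ∀ u v : V, u ≠ 0 → v ≠ 0 → u ∈ XX Γ W v → XX Γ W u = XX Γ W v := by
    intro u v hu hv huv
    exact Submodule.eq_of_le_of_finrank_le (XX_le huv) (hdim v u hv hu)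
  have hspan : ∀ v : V, v ≠ 0 → XX Γ W v ≤ Submodule.span F {v} := by
    intro v hv
    by_contra hcon
    have hlt : Submodule.span F {v} < XX Γ W v := by
      refine lt_of_le_of_ne ?_ ?_
      · rw [Submodule.span_singleton_le_iff_mem]
        exact XX_mem Γ W v
      · intro h
        exact hcon (le_of_eq h.symm)
    have h1 := Submodule.finrank_lt_finrank_of_lt hlt
    rw [finrank_span_singleton hv] at h1
    obtain ⟨y, -, hy⟩ := SetLike.exists_of_lt (lt_top_iff_ne_top.mpr (hXt v hv))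
    have hy0 : y ≠ 0 := by
      rintro rfl
      exact hy (Submodule.zero_mem _)
    have h2 : ¬ (XX Γ W y ≤ Submodule.span F {y}) := by
      intro h
      have h3 := Submodule.finrank_mono h
      rw [finrank_span_singleton hy0] at h3
      have h4 := hdim v y hv hy0
      omega
    obtain ⟨y', hy', hy's⟩ := Set.not_subset.mp h2
    have hy'0 : y' ≠ 0 := by
      rintro rfl
      exact hy's (Submodule.zero_mem _)
    have hXy : XX Γ W y' = XX Γ W y := hXeq y' y hy'0 hy0 hy'
    have hint : ∀ u, u ∈ XX Γ W v → u ∈ XX Γ W y → u = 0 := by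
      intro u hu1 hu2
      by_contra hu0
      have e1 := hXeq u v hu0 hv hu1
      have e2 := hXeq u y hu0 hy0 hu2
      apply hy
      rw [← e1, e2]
      exact XX_mem Γ W y
    have hyn : y ∉ XX Γ W v ⊔ Submodule.span F {y'} := by
      intro hcon
      obtain ⟨u, hu, c, hyc⟩ := mem_sup_span.mp hcon
      have hu0 : u = 0 := by
        apply hint u hu
        have : u = y - c • y' := by rw [hyc]; abel
        rw [this]
        exact Submodule.sub_mem _ (XX_mem Γ W y) (Submodule.smul_mem _ _ hy')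
      rw [hu0, zero_add] at hyc
      have hc0 : c ≠ 0 := by
        rintro rfl
        rw [zero_smul] at hyc
        exact hy0 hyc
      apply hy's
      rw [SetLike.mem_coe, Submodule.mem_span_singleton]
      exact ⟨c⁻¹, by rw [hyc, smul_smul, inv_mul_cancel₀ hc0, one_smul]⟩
    obtain ⟨f, hfy, hf⟩ := Submodule.exists_dual_map_eq_bot_of_notMem hyn inferInstance
    have hf' : ∀ x ∈ XX Γ W v ⊔ Submodule.span F {y'}, f x = 0 := by
      intro x hx
      have : f x ∈ (XX Γ W v ⊔ Submodule.span F {y'}).map f := Submodule.mem_map_of_mem hx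
      rw [hf] at this
      exact (Submodule.mem_bot F).mp this
    obtain ⟨t, ht, htx⟩ := XX_T hW (v := v) (f := f)
      (fun x hx => hf' x (Submodule.mem_sup_left hx))
    have hty' : t y' = y' := by
      rw [htx, hf' y' (Submodule.mem_sup_right (Submodule.mem_span_singleton_self _)), zero_smul,
        add_zero]
    have h5 : t y ∈ XX Γ W y := by
      have h6 : t y ∈ (XX Γ W y').map (t : V →ₗ[F] V) := ⟨y, by rw [hXy]; exact XX_mem Γ W y, rfl⟩
      have h7 := XX_map ht h6
      rw [hty', hXy] at h7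
      exact h7
    apply hv
    apply hint v (XX_mem Γ W v)
    have h8 : v = (f y)⁻¹ • (t y - y) := by
      rw [htx, add_sub_cancel_left, smul_smul, inv_mul_cancel₀ hfy, one_smul]
    rw [h8]
    exact Submodule.smul_mem _ _ (Submodule.sub_mem _ h5 (XX_mem Γ W y))
  have hT : AllT Γ := by
    intro v f hfv
    by_cases hv : v = 0
    · subst hv
      exact ⟨1, Γ.one_mem, fun x => by simp⟩
    · apply XX_T hW
      intro x hx
      obtain ⟨c, rfl⟩ := Submodule.mem_span_singleton.mp (hspan v hv hx)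
      rw [map_smul, hfv, smul_zero]
  rw [eq_top_iff]
  intro g _
  have hg0 : LinearMap.det (g : V →ₗ[F] V) ≠ 0 := by
    have := LinearEquiv.isUnit_det' g
    exact this.ne_zero
  obtain ⟨h, hh, hhd⟩ := hdet _ hg0
  have h1 : LinearMap.det ((g * h⁻¹ : V ≃ₗ[F] V) : V →ₗ[F] V) = 1 := by
    have h2 := det_mul_eq (g * h⁻¹) h
    have h3 : g * h⁻¹ * h = g := by group
    rw [h3, hhd] at h2
    exact (mul_eq_right₀ hg0).mp h2.symm
  have h4 : g * h⁻¹ ∈ Γ := by
    apply SL_mem hT (finrank F V) (g * h⁻¹) ⊥ _ _ h1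
    · intro u hu
      rw [Submodule.mem_bot] at hu
      rw [hu, map_zero]
    · rw [finrank_bot, zero_add]
  have h5 : g = (g * h⁻¹) * h := by group
  rw [h5]
  exact Γ.mul_mem h4 hh

end Pool.Agent.W646.MXD
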